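import Pool.Agent.Y489.GE.Stm2

/-! Project GE: almost minimal cuts (helper903). -/

set_option autoImplicit false

open Set Topology MeasureTheory Metric

noncomputable section

namespace Pool.Agent.Y903.GE

open Pool.Agent.Y489.GE

/-- surgery of a cut along a small sphere -/
theorem cut_surgery {X : Type} [MetricSpace X] {r : ℝ} {Y : Set X} (h : CutSet X r Y) (x : X)
    {ρ : ℝ} (hρ : 2 * ρ ≤ r) : CutSet X r ((Y \ ball x ρ) ∪ sphere x ρ) := by
  obtain ⟨hY, N, O, h1, h2, h3, h4⟩ := h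
  refine ⟨(hY.sdiff isOpen_ball).union isClosed_sphere, N + 1,
    Fin.cons (ball x ρ) (fun i => O i \ closedBall x ρ), ?_, ?_, ?_, ?_⟩
  · intro i
    refine Fin.cases ?_ (fun i => ?_) i
    · rw [Fin.cons_zero]
      exact isOpen_ball
    · rw [Fin.cons_succ]
      exact (h1 i).sdiff isClosed_closedBall
  · intro i
    refine Fin.cases ?_ (fun i => ?_) i
    · rw [Fin.cons_zero]
      intro y hy z hz
      rw [mem_ball] at hy hz
      have := dist_triangle_right y z x
      linarith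
    · rw [Fin.cons_succ]
      intro y hy z hz
      exact h2 i y hy.1 z hz.1
  · intro i j
    refine Fin.cases ?_ (fun i => ?_) i
    · refine Fin.cases ?_ (fun j => ?_) j
      · intro h
        exact absurd rfl h
      · intro _
        rw [Fin.cons_zero, Fin.cons_succ, Set.disjoint_left]
        intro y hy hy'
        exact hy'.2 (ball_subset_closedBall hy)
    · refine Fin.cases ?_ (fun j => ?_) j
      · intro _
        rw [Fin.cons_zero, Fin.cons_succ, Set.disjoint_left]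
        intro y hy hy'
        exact hy.2 (ball_subset_closedBall hy')
      · intro hne
        rw [Fin.cons_succ, Fin.cons_succ]
        have hij : i ≠ j := fun h => hne (by rw [h])
        exact (h3 i j hij).mono sdiff_subset sdiff_subset
  · ext z
    have h4' : ∀ z, z ∉ Y ↔ ∃ i, z ∈ O i := by
      intro z
      have : z ∈ Yᶜ ↔ z ∈ ⋃ i, O i := by rw [h4]
      simpa [mem_iUnion] using this
    rw [mem_compl_iff, mem_union, mem_sdiff, mem_ball, mem_sphere, mem_iUnion]
    constructor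
    · intro hz
      push Not at hz
      obtain ⟨hz1, hz2⟩ := hz
      by_cases hb : dist z x < ρ
      · exact ⟨0, by rw [Fin.cons_zero]; exact hb⟩
      · have hzY : z ∉ Y := fun h => hb (hz1 h)
        obtain ⟨i, hi⟩ := (h4' z).1 hzY
        refine ⟨i.succ, ?_⟩
        rw [Fin.cons_succ]
        refine ⟨hi, fun hc => ?_⟩
        rw [mem_closedBall] at hc
        exact hz2 (le_antisymm hc (not_lt.1 hb))
    · rintro ⟨i, hi⟩
      revert hi
      refine Fin.cases ?_ (fun i => ?_) i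
      · rw [Fin.cons_zero]
        intro hi
        rw [mem_ball] at hi
        rintro (⟨-, h⟩ | h)
        · exact h hi
        · exact hi.ne h
      · rw [Fin.cons_succ]
        rintro ⟨hi1, hi2⟩
        rw [mem_closedBall, not_le] at hi2
        rintro (⟨h, -⟩ | h)
        · exact (h4' z).2 ⟨i, hi1⟩ h
        · exact hi2.ne' h

theorem cut_univ (X : Type) [MetricSpace X] (r : ℝ) : CutSet X r univ := by
  refine ⟨isClosed_univ, 0, fun _ => ∅, fun i => i.elim0, fun i => i.elim0, fun i => i.elim0, ?_⟩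
  rw [compl_univ, iUnion_empty]

theorem t_CUT : S_EIL → S_CUT := by
  intro hE X _ _ _ _ m r c hr hc hX
  have hr4 : 0 < r / 4 := by linarith
  -- slices
  have hs : ∀ x : X, ∃ ρ : ℝ, r / 4 < ρ ∧ 2 * ρ ≤ r ∧
      μH[(m : ℝ)] (sphere x ρ) < ENNReal.ofReal (4 * c * r ^ m) := by
    intro x
    obtain ⟨ρ, hρ, h1⟩ := hE X m (closedBall x r) (fun y => dist y x)
      (LipschitzWith.dist_left x) (r / 4) (r / 2) (by linarith)
    refine ⟨ρ, hρ.1, by linarith [hρ.2], ?_⟩
    have h2 : closedBall x r ∩ (fun y => dist y x) ⁻¹' {ρ} = sphere x ρ := by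
      ext y
      rw [mem_inter_iff, mem_closedBall, mem_preimage, mem_singleton_iff, mem_sphere]
      constructor
      · exact fun h => h.2
      · intro h
        exact ⟨by rw [h]; linarith [hρ.2], h⟩
    rw [h2] at h1
    by_contra hcon
    rw [not_lt] at hcon
    have h3 : ENNReal.ofReal (c * r ^ (m + 1)) ≤
        ENNReal.ofReal (r / 2 - r / 4) * μH[(m : ℝ)] (sphere x ρ) := by
      refine le_trans (le_of_eq ?_) (mul_le_mul_right hcon _)
      rw [← ENNReal.ofReal_mul (by linarith)]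
      congr 1
      ring
    exact absurd (h3.trans h1) (not_le.2 (hX x))
  choose ρ hρ1 hρ2 hρ3 using hs
  -- a cut of finite measure
  have hfin : ∀ t : Finset X, ∃ Y, CutSet X r Y ∧
      μH[(m : ℝ)] (Y ∩ ⋃ x ∈ t, closedBall x (r / 4)) < ⊤ := by
    classical
    intro t
    induction t using Finset.induction_on with
    | empty =>
      refine ⟨univ, cut_univ X r, ?_⟩
      simp
    | insert x t hx ih =>
      obtain ⟨Y, hY, hY2⟩ := ih
      refine ⟨_, cut_surgery hY x (hρ2 x), ?_⟩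
      refine lt_of_le_of_lt (measure_mono (?_ : _ ⊆ sphere x (ρ x) ∪
        (Y ∩ ⋃ x ∈ t, closedBall x (r / 4)))) ?_
      · rintro z ⟨hz1, hz2⟩
        rcases hz1 with hz1 | hz1
        · right
          refine ⟨hz1.1, ?_⟩
          rw [mem_iUnion₂] at hz2 ⊢
          obtain ⟨y, hy, hzy⟩ := hz2
          rcases Finset.mem_insert.1 hy with rfl | hy'
          · exfalso
            apply hz1.2
            rw [mem_closedBall] at hzy
            rw [mem_ball]
            exact hzy.trans_lt (hρ1 y)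
          · exact ⟨y, hy', hzy⟩
        · exact Or.inl hz1
      · refine lt_of_le_of_lt (measure_union_le _ _) ?_
        exact ENNReal.add_lt_top.2 ⟨(hρ3 x).trans ENNReal.ofReal_lt_top, hY2⟩
  have hfin2 : ∃ Y, CutSet X r Y ∧ μH[(m : ℝ)] Y < ⊤ := by
    obtain ⟨t, -, ht1, ht2⟩ := (isCompact_univ (X := X)).finite_cover_balls hr4
    obtain ⟨Y, hY, hY2⟩ := hfin ht1.toFinset
    refine ⟨Y, hY, lt_of_le_of_lt (measure_mono ?_) hY2⟩
    intro z hz
    refine ⟨hz, ?_⟩
    have hz' := ht2 (mem_univ z)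
    rw [mem_iUnion₂] at hz' ⊢
    obtain ⟨y, hy, hzy⟩ := hz'
    exact ⟨y, ht1.mem_toFinset.2 hy, ball_subset_closedBall hzy⟩
  -- an almost minimal cut
  obtain ⟨μ, hμ⟩ : ∃ μ : ENNReal, μ = sInf ((fun Y : Set X => μH[(m : ℝ)] Y) '' {Y | CutSet X r Y}) :=
    ⟨_, rfl⟩
  have hμle : ∀ Y, CutSet X r Y → μ ≤ μH[(m : ℝ)] Y := by
    intro Y hY
    rw [hμ]
    exact sInf_le ⟨Y, hY, rfl⟩
  have hμtop : μ < ⊤ := by
    obtain ⟨Y, hY, hY2⟩ := hfin2
    exact (hμle Y hY).trans_lt hY2
  have hcr : 0 < c * r ^ m := by positivity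
  obtain ⟨Y, hY, hY2⟩ : ∃ Y, CutSet X r Y ∧
      μH[(m : ℝ)] Y < μ + ENNReal.ofReal (c * r ^ m) := by
    have h1 : μ < μ + ENNReal.ofReal (c * r ^ m) :=
      ENNReal.lt_add_right hμtop.ne (ENNReal.ofReal_pos.2 hcr).ne'
    have h2 : sInf ((fun Y : Set X => μH[(m : ℝ)] Y) '' {Y | CutSet X r Y}) <
        μ + ENNReal.ofReal (c * r ^ m) := by rw [← hμ]; exact h1
    obtain ⟨_, ⟨Y, hY, rfl⟩, hY2⟩ := sInf_lt_iff.1 h2
    exact ⟨Y, hY, hY2⟩
  refine ⟨Y, hY, fun x => ?_⟩
  have hsub : Y ∩ closedBall x (r / 4) ⊆ Y ∩ ball x (ρ x) :=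
    inter_subset_inter_right _ (closedBall_subset_ball (hρ1 x))
  refine lt_of_le_of_lt (measure_mono hsub) ?_
  have h1 := hμle _ (cut_surgery hY x (hρ2 x))
  have h2 : μH[(m : ℝ)] ((Y \ ball x (ρ x)) ∪ sphere x (ρ x)) ≤
      μH[(m : ℝ)] (Y \ ball x (ρ x)) + ENNReal.ofReal (4 * c * r ^ m) :=
    (measure_union_le _ _).trans (add_le_add le_rfl (hρ3 x).le)
  have h3 := measure_inter_add_sdiff (μ := μH[(m : ℝ)]) Y
    (measurableSet_ball (x := x) (ε := ρ x))
  have hfinY : μH[(m : ℝ)] (Y \ ball x (ρ x)) ≠ ⊤ := by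
    have h4 : μH[(m : ℝ)] Y < ⊤ :=
      hY2.trans (ENNReal.add_lt_top.2 ⟨hμtop, ENNReal.ofReal_lt_top⟩)
    exact (lt_of_le_of_lt (measure_mono sdiff_subset) h4).ne
  have h5 : μH[(m : ℝ)] (Y \ ball x (ρ x)) + μH[(m : ℝ)] (Y ∩ ball x (ρ x)) <
      μH[(m : ℝ)] (Y \ ball x (ρ x)) + ENNReal.ofReal (5 * c * r ^ m) := by
    rw [add_comm (μH[(m : ℝ)] (Y \ ball x (ρ x))) (μH[(m : ℝ)] (Y ∩ ball x (ρ x))), h3]
    refine hY2.trans_le ?_
    refine (add_le_add (h1.trans h2) le_rfl).trans (le_of_eq ?_)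
    rw [add_assoc, ← ENNReal.ofReal_add (by positivity) hcr.le]
    congr 2
    ring
  exact (ENNReal.add_lt_add_iff_left hfinY).1 h5

end Pool.Agent.Y903.GE
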